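import Mathlib

set_option autoImplicit false

/-! RC-GAP, combinatorial part: a weighted Cheeger inequality. -/

namespace Pool.Agent.W885.RC

open Finset

noncomputable section

variable {n : Type} [Fintype n] [DecidableEq n]

/-- the energy of a function -/
def E (W : n → n → ℝ) (f : n → ℝ) : ℝ := ∑ i, ∑ j, W i j * (f i - f j) ^ 2

/-- indicator function -/
def ind (A : Finset n) (i : n) : ℝ := if i ∈ A then 1 else 0

lemma ind_sq (A : Finset n) (i j : n) : (ind A i - ind A j) ^ 2 = |ind A i - ind A j| := by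
  unfold ind
  split_ifs <;> norm_num

lemma sum_ind (A : Finset n) : ∑ i, ind A i = A.card := by
  unfold ind
  rw [Finset.sum_ite_mem, Finset.univ_inter, Finset.sum_const, nsmul_eq_mul, mul_one]

/-- the co-area inequality -/
lemma coarea (W : n → n → ℝ) (e : ℝ) (A0 : Finset n)
    (hiso : ∀ A ⊆ A0, e * A.card ≤ E W (ind A)) :
    ∀ (N : ℕ) (g : n → ℝ), (univ.filter (fun i => g i ≠ 0)).card ≤ N → (∀ i, 0 ≤ g i) →
      (∀ i, i ∉ A0 → g i = 0) → e * ∑ i, g i ≤ ∑ i, ∑ j, W i j * |g i - g j| := by
  intro N
  induction N with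
  | zero =>
    intro g hN _ _
    have h0 : ∀ i, g i = 0 := by
      intro i
      by_contra hi
      have : i ∈ univ.filter (fun i => g i ≠ 0) := by simp [hi]
      have := Finset.card_pos.mpr ⟨i, this⟩
      omega
    simp [h0]
  | succ N ih =>
    intro g hN hg hsup
    set B := univ.filter (fun i => g i ≠ 0) with hB
    by_cases hBe : B = ∅
    · have h0 : ∀ i, g i = 0 := by
        intro i
        by_contra hi
        have : i ∈ B := by rw [hB]; simp [hi]
        rw [hBe] at this
        simp at this
      simp [h0]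
    · have hne : B.Nonempty := Finset.nonempty_iff_ne_empty.mpr hBe
      obtain ⟨i0, hi0, hmin⟩ := Finset.exists_min_image B g hne
      set t := g i0 with ht
      have hi0' : g i0 ≠ 0 := by
        rw [hB, mem_filter] at hi0
        exact hi0.2
      have htpos : 0 < t := lt_of_le_of_ne (hg i0) (Ne.symm hi0')
      have hmemB : ∀ i, i ∈ B ↔ g i ≠ 0 := by intro i; rw [hB]; simp
      set g' : n → ℝ := fun i => g i - t * ind B i with hg'
      have hg'0 : ∀ i, 0 ≤ g' i := by
        intro i
        simp only [hg', ind]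
        by_cases hi : i ∈ B
        · rw [if_pos hi]
          have := hmin i hi
          linarith
        · rw [if_neg hi]
          linarith [hg i]
      have hg'sub : univ.filter (fun i => g' i ≠ 0) ⊆ B.erase i0 := by
        intro i hi
        rw [mem_filter] at hi
        rw [mem_erase]
        constructor
        · rintro rfl
          apply hi.2
          simp only [hg', ind]
          rw [if_pos hi0]
          ring
        · rw [hmemB]
          intro h0
          apply hi.2
          simp only [hg', ind]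
          rw [if_neg (by rw [hmemB]; simpa using h0), h0]
          ring
      have hcard : (univ.filter (fun i => g' i ≠ 0)).card ≤ N := by
        have h1 := Finset.card_le_card hg'sub
        rw [Finset.card_erase_of_mem hi0] at h1
        omega
      have hBA : B ⊆ A0 := by
        intro i hi
        rw [hmemB] at hi
        by_contra hiA
        exact hi (hsup i hiA)
      have hsup' : ∀ i, i ∉ A0 → g' i = 0 := by
        intro i hi
        have hiB : i ∉ B := fun h => hi (hBA h)
        simp only [hg', ind]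
        rw [if_neg hiB, hsup i hi]
        ring
      have h1 := ih g' hcard hg'0 hsup'
      have h2 := hiso B hBA
      have h3 : ∀ i j, |g i - g j| = |g' i - g' j| + t * |ind B i - ind B j| := by
        intro i j
        simp only [hg', ind]
        by_cases hi : i ∈ B
        · by_cases hj : j ∈ B
          · simp [hi, hj]
          · have hj0 : g j = 0 := by
              by_contra h
              exact hj ((hmemB j).mpr h)
            have hi1 := hmin i hi
            simp only [hi, hj, if_true, if_false, hj0]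
            rw [abs_of_nonneg, abs_of_nonneg, abs_of_nonneg] <;> linarith
        · have hi0 : g i = 0 := by
            by_contra h
            exact hi ((hmemB i).mpr h)
          by_cases hj : j ∈ B
          · have hj1 := hmin j hj
            simp only [hi, hj, if_true, if_false, hi0]
            rw [abs_of_nonpos, abs_of_nonpos, abs_of_nonpos] <;> linarith
          · have hj0 : g j = 0 := by
              by_contra h
              exact hj ((hmemB j).mpr h)
            simp [hi, hj, hi0, hj0]
      have h4 : ∑ i, ∑ j, W i j * |g i - g j| =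
          (∑ i, ∑ j, W i j * |g' i - g' j|) + t * E W (ind B) := by
        unfold E
        rw [mul_sum, ← sum_add_distrib]
        refine sum_congr rfl fun i _ => ?_
        rw [mul_sum, ← sum_add_distrib]
        refine sum_congr rfl fun j _ => ?_
        rw [h3, ind_sq]
        ring
      have h5 : ∑ i, g i = (∑ i, g' i) + t * B.card := by
        rw [← sum_ind, mul_sum, ← sum_add_distrib]
        refine sum_congr rfl fun i _ => ?_
        simp only [hg']
        ring
      rw [h4, h5]
      have h6 : t * (e * B.card) ≤ t * E W (ind B) := mul_le_mul_of_nonneg_left h2 htpos.le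
      linarith

/-- the inequality for nonnegative functions with small support -/
lemma cheeger (W : n → n → ℝ) (hW : ∀ i j, 0 ≤ W i j) (k e : ℝ) (hk : 0 ≤ k) (he : 0 < e)
    (hrow : ∀ i, ∑ j, W i j = k) (hcol : ∀ j, ∑ i, W i j = k) (A0 : Finset n)
    (hiso : ∀ A ⊆ A0, e * A.card ≤ E W (ind A)) (f : n → ℝ) (hf : ∀ i, 0 ≤ f i)
    (hsup : ∀ i, i ∉ A0 → f i = 0) : ∑ i, f i ^ 2 ≤ 4 * k / e ^ 2 * E W f := by
  set F := ∑ i, f i ^ 2 with hF
  have hF0 : 0 ≤ F := sum_nonneg fun i _ => sq_nonneg _
  have hE0 : 0 ≤ E W f :=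
    sum_nonneg fun i _ => sum_nonneg fun j _ => mul_nonneg (hW i j) (sq_nonneg _)
  set G := ∑ i, ∑ j, W i j * |f i ^ 2 - f j ^ 2| with hG
  have h1 : e * F ≤ G := coarea W e A0 hiso _ (fun i => f i ^ 2) le_rfl (fun i => sq_nonneg _)
    (fun i hi => by rw [hsup i hi]; ring)
  have h2 : G ^ 2 ≤ E W f * (∑ i, ∑ j, W i j * (f i + f j) ^ 2) := by
    have hCS := Finset.sum_mul_sq_le_sq_mul_sq (univ : Finset (n × n))
      (fun p => Real.sqrt (W p.1 p.2) * |f p.1 - f p.2|)
      (fun p => Real.sqrt (W p.1 p.2) * (f p.1 + f p.2))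
    have e1 : ∑ p : n × n, (Real.sqrt (W p.1 p.2) * |f p.1 - f p.2|) *
        (Real.sqrt (W p.1 p.2) * (f p.1 + f p.2)) = G := by
      rw [hG, Fintype.sum_prod_type]
      refine sum_congr rfl fun i _ => sum_congr rfl fun j _ => ?_
      have hs := Real.mul_self_sqrt (hW i j)
      have habs : |f i ^ 2 - f j ^ 2| = |f i - f j| * (f i + f j) := by
        have hsum : 0 ≤ f i + f j := add_nonneg (hf i) (hf j)
        rw [show f i ^ 2 - f j ^ 2 = (f i - f j) * (f i + f j) by ring, abs_mul,
          abs_of_nonneg hsum]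
      rw [habs]
      linear_combination |f i - f j| * (f i + f j) * hs
    have e2 : ∑ p : n × n, (Real.sqrt (W p.1 p.2) * |f p.1 - f p.2|) ^ 2 = E W f := by
      unfold E
      rw [Fintype.sum_prod_type]
      refine sum_congr rfl fun i _ => sum_congr rfl fun j _ => ?_
      rw [mul_pow, Real.sq_sqrt (hW i j), sq_abs]
    have e3 : ∑ p : n × n, (Real.sqrt (W p.1 p.2) * (f p.1 + f p.2)) ^ 2 =
        ∑ i, ∑ j, W i j * (f i + f j) ^ 2 := by
      rw [Fintype.sum_prod_type]
      refine sum_congr rfl fun i _ => sum_congr rfl fun j _ => ?_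
      rw [mul_pow, Real.sq_sqrt (hW i j)]
    rw [e1, e2, e3] at hCS
    exact hCS
  have h3 : ∑ i, ∑ j, W i j * (f i + f j) ^ 2 ≤ 4 * k * F := by
    have h4 : ∑ i, ∑ j, W i j * (f i + f j) ^ 2 ≤
        ∑ i, ∑ j, (2 * (W i j * f i ^ 2) + 2 * (W i j * f j ^ 2)) := by
      refine sum_le_sum fun i _ => sum_le_sum fun j _ => ?_
      have := mul_le_mul_of_nonneg_left (show (f i + f j) ^ 2 ≤ 2 * f i ^ 2 + 2 * f j ^ 2 by
        nlinarith [sq_nonneg (f i - f j)]) (hW i j)
      linarith
    have h5 : ∑ i, ∑ j, (2 * (W i j * f i ^ 2) + 2 * (W i j * f j ^ 2)) = 4 * k * F := by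
      simp only [sum_add_distrib, ← mul_sum]
      have h6 : ∑ i, ∑ j, W i j * f i ^ 2 = k * F := by
        rw [hF, mul_sum]
        refine sum_congr rfl fun i _ => ?_
        rw [← sum_mul, hrow]
      have h7 : ∑ i, ∑ j, W i j * f j ^ 2 = k * F := by
        rw [sum_comm, hF, mul_sum]
        refine sum_congr rfl fun j _ => ?_
        rw [← sum_mul, hcol]
      rw [h6, h7]
      ring
    exact h4.trans h5.le
  rcases eq_or_lt_of_le hF0 with h0 | h0
  · rw [← h0]
    positivity
  · have h6 : (e * F) ^ 2 ≤ E W f * (4 * k * F) := by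
      calc (e * F) ^ 2 ≤ G ^ 2 := pow_le_pow_left₀ (by positivity) h1 2
        _ ≤ _ := h2
        _ ≤ _ := mul_le_mul_of_nonneg_left h3 hE0
    have h7 : e ^ 2 * F ≤ 4 * k * E W f := by
      have h8 : F * (e ^ 2 * F) ≤ F * (4 * k * E W f) := by nlinarith
      exact le_of_mul_le_mul_left h8 h0
    rw [div_mul_eq_mul_div, le_div_iff₀ (by positivity)]
    linarith

/-- a median -/
lemma median (S : Finset n) (a : n → ℝ) : ∃ m : ℝ,
    2 * (S.filter (fun i => m < a i)).card ≤ S.card ∧
    2 * (S.filter (fun i => a i < m)).card ≤ S.card := by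
  classical
  rcases S.eq_empty_or_nonempty with rfl | hS
  · exact ⟨0, by simp⟩
  set T := S.filter (fun i => 2 * (S.filter (fun j => a i < a j)).card ≤ S.card) with hT
  have hTne : T.Nonempty := by
    obtain ⟨i, hi, hmax⟩ := Finset.exists_max_image S a hS
    refine ⟨i, ?_⟩
    rw [hT, mem_filter]
    refine ⟨hi, ?_⟩
    have : S.filter (fun j => a i < a j) = ∅ := by
      rw [filter_eq_empty_iff]
      intro j hj
      exact not_lt.mpr (hmax j hj)
    rw [this]
    simp
  obtain ⟨i0, hi0, hmin⟩ := Finset.exists_min_image T a hTne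
  rw [hT, mem_filter] at hi0
  refine ⟨a i0, hi0.2, ?_⟩
  rcases (S.filter (fun i => a i < a i0)).eq_empty_or_nonempty with he | hne
  · rw [he]; simp
  · obtain ⟨i1, hi1, hmax⟩ := Finset.exists_max_image _ a hne
    rw [mem_filter] at hi1
    have h1 : i1 ∉ T := fun h => absurd (hmin i1 h) (not_le.mpr hi1.2)
    rw [hT, mem_filter, not_and] at h1
    have h2 := h1 hi1.1
    have h3 : S.filter (fun i => a i < a i0) ⊆ S \ S.filter (fun j => a i1 < a j) := by
      intro j hj
      rw [mem_sdiff, mem_filter]
      have h4 := hmax j hj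
      rw [mem_filter] at hj
      refine ⟨hj.1, fun h => absurd h4 (not_le.mpr h.2)⟩
    have h4 := card_le_card h3
    rw [card_sdiff_of_subset (filter_subset _ _)] at h4
    have h5 := card_le_card (filter_subset (fun j => a i1 < a j) S)
    omega

/-- **the core inequality** -/
theorem core (W : n → n → ℝ) (hW : ∀ i j, 0 ≤ W i j) (k e ζ : ℝ) (hk : 0 ≤ k) (he : 0 < e)
    (hζ : 0 ≤ ζ) (hrow : ∀ i, ∑ j, W i j = k) (hcol : ∀ j, ∑ i, W i j = k) (S : Finset n)
    (hiso : ∀ A ⊆ S, (A.card : ℝ) ≤ 1 / 2 * S.card → e * A.card ≤ E W (ind A))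
    (hS : E W (ind S) ≤ ζ * S.card) (a : n → ℝ) (ha : ∀ i, i ∉ S → a i = 0) :
    ∃ m : ℝ, ∑ i, (a i - m * ind S i) ^ 2 ≤ 16 * k / e ^ 2 * (E W a + ζ * ∑ i, a i ^ 2) := by
  obtain ⟨m, hm1, hm2⟩ := median S a
  refine ⟨m, ?_⟩
  set b : n → ℝ := fun i => a i - m * ind S i with hb
  have hb0 : ∀ i, i ∉ S → b i = 0 := by
    intro i hi
    simp only [hb, ind]
    rw [if_neg hi, ha i hi]
    ring
  have hbS : ∀ i ∈ S, b i = a i - m := by
    intro i hi
    simp only [hb, ind]
    rw [if_pos hi]
    ring
  -- positive and negative parts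
  have hpos := cheeger W hW k e hk he hrow hcol (S.filter (fun i => m < a i)) (by
    intro A hA
    apply hiso A (hA.trans (filter_subset _ _))
    have h1 := card_le_card hA
    have h2 : 2 * A.card ≤ S.card := by omega
    have h3 : (2 : ℝ) * A.card ≤ S.card := by exact_mod_cast h2
    linarith) (fun i => max (b i) 0) (fun i => le_max_right _ _) (by
    intro i hi
    apply max_eq_right
    by_cases hiS : i ∈ S
    · rw [hbS i hiS]
      rw [mem_filter, not_and] at hi
      linarith [hi hiS]
    · rw [hb0 i hiS])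
  have hneg := cheeger W hW k e hk he hrow hcol (S.filter (fun i => a i < m)) (by
    intro A hA
    apply hiso A (hA.trans (filter_subset _ _))
    have h1 := card_le_card hA
    have h2 : 2 * A.card ≤ S.card := by omega
    have h3 : (2 : ℝ) * A.card ≤ S.card := by exact_mod_cast h2
    linarith) (fun i => max (-b i) 0) (fun i => le_max_right _ _) (by
    intro i hi
    apply max_eq_right
    by_cases hiS : i ∈ S
    · rw [hbS i hiS]
      rw [mem_filter, not_and] at hi
      linarith [hi hiS]
    · rw [hb0 i hiS]; simp)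
  have hsq : ∑ i, b i ^ 2 = ∑ i, (max (b i) 0) ^ 2 + ∑ i, (max (-b i) 0) ^ 2 := by
    rw [← sum_add_distrib]
    refine sum_congr rfl fun i _ => ?_
    rcases le_total 0 (b i) with h | h
    · rw [max_eq_left h, max_eq_right (by linarith)]; ring
    · rw [max_eq_right h, max_eq_left (by linarith)]; ring
  have hEE : E W (fun i => max (b i) 0) + E W (fun i => max (-b i) 0) ≤ E W b := by
    unfold E
    rw [← sum_add_distrib]
    refine sum_le_sum fun i _ => ?_
    rw [← sum_add_distrib]
    refine sum_le_sum fun j _ => ?_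
    rw [← mul_add]
    apply mul_le_mul_of_nonneg_left _ (hW i j)
    show (max (b i) 0 - max (b j) 0) ^ 2 + (max (-b i) 0 - max (-b j) 0) ^ 2 ≤ (b i - b j) ^ 2
    rcases le_total 0 (b i) with h | h <;> rcases le_total 0 (b j) with h' | h'
    · rw [max_eq_left h, max_eq_right (by linarith : -b i ≤ 0), max_eq_left h',
        max_eq_right (by linarith : -b j ≤ 0)]
      nlinarith
    · rw [max_eq_left h, max_eq_right (by linarith : -b i ≤ 0), max_eq_right h',
        max_eq_left (by linarith : 0 ≤ -b j)]
      nlinarith [mul_nonneg h (neg_nonneg.mpr h')]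
    · rw [max_eq_right h, max_eq_left (by linarith : 0 ≤ -b i), max_eq_left h',
        max_eq_right (by linarith : -b j ≤ 0)]
      nlinarith [mul_nonneg h' (neg_nonneg.mpr h)]
    · rw [max_eq_right h, max_eq_left (by linarith : 0 ≤ -b i), max_eq_right h',
        max_eq_left (by linarith : 0 ≤ -b j)]
      nlinarith
  have hc : 0 ≤ 4 * k / e ^ 2 := by positivity
  have h1 : ∑ i, b i ^ 2 ≤ 4 * k / e ^ 2 * E W b := by
    rw [hsq]
    calc _ ≤ 4 * k / e ^ 2 * E W (fun i => max (b i) 0) +
          4 * k / e ^ 2 * E W (fun i => max (-b i) 0) := add_le_add hpos hneg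
      _ = 4 * k / e ^ 2 * (E W (fun i => max (b i) 0) + E W (fun i => max (-b i) 0)) := by ring
      _ ≤ _ := mul_le_mul_of_nonneg_left hEE hc
  have h2 : E W b ≤ 2 * E W a + 2 * m ^ 2 * E W (ind S) := by
    unfold E
    rw [mul_sum, mul_sum, ← sum_add_distrib]
    refine sum_le_sum fun i _ => ?_
    rw [mul_sum, mul_sum, ← sum_add_distrib]
    refine sum_le_sum fun j _ => ?_
    have h3 : (b i - b j) ^ 2 ≤ 2 * (a i - a j) ^ 2 + 2 * m ^ 2 * (ind S i - ind S j) ^ 2 := by
      simp only [hb]
      nlinarith [sq_nonneg ((a i - a j) + m * (ind S i - ind S j))]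
    have h4 := mul_le_mul_of_nonneg_left h3 (hW i j)
    linarith
  have h3 : m ^ 2 * S.card ≤ 2 * ∑ i, a i ^ 2 := by
    -- at least half of the values are at least `|m|` in absolute value
    have key : ∀ (p : n → Prop) [DecidablePred p], 2 * (S.filter p).card ≤ S.card →
        (∀ i ∈ S, ¬ p i → m ^ 2 ≤ a i ^ 2) → m ^ 2 * S.card ≤ 2 * ∑ i, a i ^ 2 := by
      intro p _ hp1 hp2
      have h5 := card_filter_add_card_filter_not (s := S) p
      have h6 : S.card ≤ 2 * (S.filter (fun i => ¬ p i)).card := by omega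
      have h7 : (S.card : ℝ) ≤ 2 * ((S.filter (fun i => ¬ p i)).card : ℝ) := by exact_mod_cast h6
      have h8 : ((S.filter (fun i => ¬ p i)).card : ℝ) * m ^ 2 ≤ ∑ i, a i ^ 2 := by
        calc ((S.filter (fun i => ¬ p i)).card : ℝ) * m ^ 2 =
              ∑ i ∈ S.filter (fun i => ¬ p i), m ^ 2 := by rw [sum_const, nsmul_eq_mul]
          _ ≤ ∑ i ∈ S.filter (fun i => ¬ p i), a i ^ 2 := by
              refine sum_le_sum fun i hi => ?_
              rw [mem_filter] at hi
              exact hp2 i hi.1 hi.2
          _ ≤ ∑ i, a i ^ 2 := sum_le_sum_of_subset_of_nonneg (subset_univ _)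
              fun i _ _ => sq_nonneg _
      nlinarith [sq_nonneg m]
    rcases le_total 0 m with h | h
    · refine key (fun i => a i < m) hm2 fun i _ hi => ?_
      rw [not_lt] at hi
      exact pow_le_pow_left₀ h hi 2
    · refine key (fun i => m < a i) hm1 fun i _ hi => ?_
      rw [not_lt] at hi
      nlinarith
  have hE : E W b ≤ 2 * E W a + 4 * (ζ * ∑ i, a i ^ 2) := by
    have h4 : m ^ 2 * E W (ind S) ≤ m ^ 2 * (ζ * S.card) :=
      mul_le_mul_of_nonneg_left hS (sq_nonneg m)
    have h5 : ζ * (m ^ 2 * S.card) ≤ ζ * (2 * ∑ i, a i ^ 2) := mul_le_mul_of_nonneg_left h3 hζ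
    nlinarith
  have hEa : 0 ≤ E W a :=
    sum_nonneg fun i _ => sum_nonneg fun j _ => mul_nonneg (hW i j) (sq_nonneg _)
  calc ∑ i, b i ^ 2 ≤ 4 * k / e ^ 2 * E W b := h1
    _ ≤ 4 * k / e ^ 2 * (4 * (E W a + ζ * ∑ i, a i ^ 2)) := by
        apply mul_le_mul_of_nonneg_left _ hc
        linarith
    _ = 16 * k / e ^ 2 * (E W a + ζ * ∑ i, a i ^ 2) := by ring

end

end Pool.Agent.W885.RC
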