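import Pool.Agent.W661.RC.Stm
import Pool.Agent.W885.RC.GapCore

set_option autoImplicit false

/-! RC-GAP: an isoperimetric gap gives a spectral gap. -/

namespace Pool.Agent.W885.RC

open Matrix Finset Pool.Agent.W661.RC
open scoped ComplexOrder

noncomputable section

variable {d : ℕ}

lemma hs_conjTranspose (x : Mt d) : hs xᴴ = hs x := by
  unfold hs
  rw [sum_comm]
  refine sum_congr rfl fun i _ => sum_congr rfl fun j _ => ?_
  rw [conjTranspose_apply, norm_star]

lemma hs_eq (x : Mt d) : ((hs x : ℝ) : ℂ) = trace (xᴴ * x) := by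
  unfold hs
  rw [trace, sum_comm]
  push_cast
  refine sum_congr rfl fun j _ => ?_
  rw [diag_apply, mul_apply]
  refine sum_congr rfl fun i _ => ?_
  rw [conjTranspose_apply]
  have := Complex.conj_mul' (x i j)
  rw [← this]
  rfl

lemma hs_mul_left (U x : Mt d) (hU : Uᴴ * U = 1) : hs (U * x) = hs x := by
  have h : ((hs (U * x) : ℝ) : ℂ) = ((hs x : ℝ) : ℂ) := by
    rw [hs_eq, hs_eq, conjTranspose_mul]
    have : xᴴ * Uᴴ * (U * x) = xᴴ * (Uᴴ * U) * x := by simp only [Matrix.mul_assoc]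
    rw [this, hU, Matrix.mul_one]
  exact_mod_cast h

lemma hs_mul_right (U x : Mt d) (hU : U * Uᴴ = 1) : hs (x * U) = hs x := by
  rw [← hs_conjTranspose, conjTranspose_mul, hs_mul_left _ _ (by rw [conjTranspose_conjTranspose]; exact hU),
    hs_conjTranspose]

lemma hs_par (x y : Mt d) : hs (x + y) + hs (x - y) = 2 * hs x + 2 * hs y := by
  unfold hs
  simp only [← sum_add_distrib, mul_sum, ← sum_add_distrib]
  refine sum_congr rfl fun i _ => sum_congr rfl fun j _ => ?_
  have := parallelogram_law_with_norm ℝ (x i j) (y i j)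
  simp only [Matrix.add_apply, Matrix.sub_apply]
  nlinarith

lemma hs_smul (c : ℂ) (x : Mt d) : hs (c • x) = ‖c‖ ^ 2 * hs x := by
  unfold hs
  simp only [mul_sum]
  refine sum_congr rfl fun i _ => sum_congr rfl fun j _ => ?_
  rw [Matrix.smul_apply, smul_eq_mul, norm_mul, mul_pow]

lemma hs_nonneg (x : Mt d) : 0 ≤ hs x :=
  sum_nonneg fun _ _ => sum_nonneg fun _ _ => sq_nonneg _

/-- `x + i y` for self-adjoint `x`, `y` -/
lemma hs_add_I (x y : Mt d) (hx : xᴴ = x) (hy : yᴴ = y) :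
    hs (x + Complex.I • y) = hs x + hs y := by
  have h1 : hs (x + Complex.I • y) = hs (x - Complex.I • y) := by
    rw [← hs_conjTranspose, conjTranspose_add, conjTranspose_smul, hx, hy]
    congr 1
    rw [show star Complex.I = -Complex.I from Complex.conj_I, neg_smul, sub_eq_add_neg]
  have h2 := hs_par x (Complex.I • y)
  rw [← h1, hs_smul, Complex.norm_I] at h2
  linarith

/-- diagonal matrices with real entries -/
def dg (a : Fin d → ℝ) : Mt d := diagonal fun i => ((a i : ℝ) : ℂ)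

lemma hs_dg (a : Fin d → ℝ) : hs (dg a) = ∑ i, a i ^ 2 := by
  unfold hs dg
  refine sum_congr rfl fun i _ => ?_
  rw [sum_eq_single i]
  · rw [diagonal_apply_eq, Complex.norm_real, Real.norm_eq_abs, sq_abs]
  · intro j _ hj
    rw [diagonal_apply_ne _ (Ne.symm hj)]
    simp
  · intro h
    exact absurd (mem_univ i) h

lemma dg_mul (a b : Fin d → ℝ) : dg a * dg b = dg fun i => a i * b i := by
  unfold dg
  rw [diagonal_mul_diagonal]
  congr 1
  funext i
  push_cast
  rfl

lemma dg_conj (a : Fin d → ℝ) : (dg a)ᴴ = dg a := by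
  unfold dg
  rw [diagonal_conjTranspose]
  congr 1
  funext i
  exact Complex.conj_ofReal _

/-- the weights -/
def Wt {k : ℕ} (u : Fin k → Mt d) (V : Mt d) (i j : Fin d) : ℝ := ∑ s, ‖(Vᴴ * u s * V) i j‖ ^ 2

lemma Wt_nonneg {k : ℕ} (u : Fin k → Mt d) (V : Mt d) (i j : Fin d) : 0 ≤ Wt u V i j :=
  sum_nonneg fun _ _ => sq_nonneg _

lemma row_one (w : Mt d) (hw : w * wᴴ = 1) (i : Fin d) : ∑ j, ‖w i j‖ ^ 2 = 1 := by
  have h := congrFun (congrFun hw i) i
  rw [mul_apply, one_apply_eq] at h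
  have h2 : ((∑ j, ‖w i j‖ ^ 2 : ℝ) : ℂ) = 1 := by
    rw [← h]
    push_cast
    refine sum_congr rfl fun j _ => ?_
    rw [conjTranspose_apply]
    exact (Complex.mul_conj' (w i j)).symm
  exact_mod_cast h2

lemma col_one (w : Mt d) (hw : wᴴ * w = 1) (j : Fin d) : ∑ i, ‖w i j‖ ^ 2 = 1 := by
  have h := row_one wᴴ (by rw [conjTranspose_conjTranspose]; exact hw) j
  rw [← h]
  refine sum_congr rfl fun i _ => ?_
  rw [conjTranspose_apply, norm_star]

/-- the energy of a matrix which is diagonal in the basis `V` -/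
lemma en_dg {k : ℕ} (u : Fin k → Mt d) (V : Mt d) (h1 : Vᴴ * V = 1) (h2 : V * Vᴴ = 1)
    (a : Fin d → ℝ) : en u (V * dg a * Vᴴ) = E (Wt u V) a := by
  unfold en E Wt
  have h : ∀ s, hs (u s * (V * dg a * Vᴴ) - V * dg a * Vᴴ * u s) =
      ∑ i, ∑ j, ‖(Vᴴ * u s * V) i j‖ ^ 2 * (a i - a j) ^ 2 := by
    intro s
    have e1 : hs (u s * (V * dg a * Vᴴ) - V * dg a * Vᴴ * u s) =
        hs (Vᴴ * (u s * (V * dg a * Vᴴ) - V * dg a * Vᴴ * u s) * V) := by
      rw [hs_mul_right V _ h2, hs_mul_left Vᴴ _ (by rw [conjTranspose_conjTranspose]; exact h2)]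
    have e2 : Vᴴ * (u s * (V * dg a * Vᴴ) - V * dg a * Vᴴ * u s) * V =
        (Vᴴ * u s * V) * dg a - dg a * (Vᴴ * u s * V) := by
      rw [Matrix.mul_sub, Matrix.sub_mul]
      congr 1
      · have : Vᴴ * (u s * (V * dg a * Vᴴ)) * V = Vᴴ * u s * V * dg a * (Vᴴ * V) := by
          simp only [Matrix.mul_assoc]
        rw [this, h1, Matrix.mul_one]
      · have : Vᴴ * (V * dg a * Vᴴ * u s) * V = (Vᴴ * V) * (dg a * (Vᴴ * u s * V)) := by
          simp only [Matrix.mul_assoc]
        rw [this, h1, Matrix.one_mul]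
    rw [e1, e2]
    unfold hs
    refine sum_congr rfl fun i _ => sum_congr rfl fun j _ => ?_
    rw [Matrix.sub_apply, dg, mul_diagonal, diagonal_mul]
    have e3 : (Vᴴ * u s * V) i j * ((a j : ℝ) : ℂ) - ((a i : ℝ) : ℂ) * (Vᴴ * u s * V) i j =
        (Vᴴ * u s * V) i j * ((a j - a i : ℝ) : ℂ) := by push_cast; ring
    rw [e3, norm_mul, mul_pow, Complex.norm_real, Real.norm_eq_abs, sq_abs]
    ring
  rw [sum_congr rfl fun s _ => h s, sum_comm]
  refine sum_congr rfl fun i _ => ?_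
  rw [sum_comm]
  refine sum_congr rfl fun j _ => ?_
  rw [sum_mul]

/-- simultaneous diagonalisation of `x = q x q` and `q` -/
lemma joint (q x : Mt d) (hq : IsPr q) (hx : xᴴ = x) (hqx : q * x * q = x) :
    ∃ (V : Mt d) (a : Fin d → ℝ) (S : Finset (Fin d)), Vᴴ * V = 1 ∧ V * Vᴴ = 1 ∧
      x = V * dg a * Vᴴ ∧ q = V * dg (ind S) * Vᴴ ∧ ∀ i, i ∉ S → a i = 0 := by
  classical
  obtain ⟨hq1, hq2⟩ := hq
  have hqx1 : q * x = x := by
    rw [← hqx]
    simp only [← Matrix.mul_assoc, hq2]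
  have hqx2 : x * q = x := by
    rw [← hqx]
    simp only [Matrix.mul_assoc, hq2]
  -- a real number which is not an eigenvalue of `x`
  obtain ⟨c, hc⟩ : ∃ c : ℝ, (Matrix.scalar (Fin d) ((c : ℝ) : ℂ) - x).det ≠ 0 := by
    have hp : x.charpoly ≠ 0 := (Matrix.charpoly_monic x).ne_zero
    have hfin : Set.Finite {z : ℂ | x.charpoly.IsRoot z} := Polynomial.finite_setOfPred_isRoot hp
    have hfin2 : Set.Finite {c : ℝ | x.charpoly.IsRoot ((c : ℝ) : ℂ)} :=
      hfin.preimage (Complex.ofReal_injective.injOn)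
    obtain ⟨c, hc⟩ := hfin2.infinite_compl.nonempty
    refine ⟨c, fun h0 => hc ?_⟩
    show x.charpoly.IsRoot ((c : ℝ) : ℂ)
    rw [Polynomial.IsRoot.def, Matrix.eval_charpoly]
    exact h0
  set y : Mt d := x + ((c : ℝ) : ℂ) • (1 - q) with hy
  have hyH : y.IsHermitian := by
    show yᴴ = y
    rw [hy, conjTranspose_add, conjTranspose_smul, conjTranspose_sub, conjTranspose_one, hx, hq1]
    congr 2
    exact Complex.conj_ofReal c
  set V : Mt d := (hyH.eigenvectorUnitary : Mt d) with hV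
  have hV1 : Vᴴ * V = 1 := Unitary.coe_star_mul_self hyH.eigenvectorUnitary
  have hV2 : V * Vᴴ = 1 := Unitary.coe_mul_star_self hyH.eigenvectorUnitary
  set lam := hyH.eigenvalues with hlam
  have hspec : y = V * dg lam * Vᴴ := by
    have h := hyH.spectral_theorem
    rw [Unitary.conjStarAlgAut_apply] at h
    exact h
  have hyV : y * V = V * dg lam := by
    calc y * V = V * dg lam * (Vᴴ * V) := by
          conv_lhs => rw [hspec]
          simp only [Matrix.mul_assoc]
      _ = V * dg lam := by rw [hV1, Matrix.mul_one]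
  have hcol : ∀ j, y *ᵥ (V.col j) = ((lam j : ℝ) : ℂ) • V.col j := by
    intro j
    funext i
    have h := congrFun (congrFun hyV i) j
    rw [dg, mul_diagonal] at h
    rw [Pi.smul_apply, smul_eq_mul, mul_comm]
    exact h
  have hqy : q * y = x := by
    rw [hy, Matrix.mul_add, hqx1, Matrix.mul_smul, Matrix.mul_sub, Matrix.mul_one, hq2, sub_self,
      smul_zero, add_zero]
  have hq1y : (1 - q) * y = ((c : ℝ) : ℂ) • (1 - q) := by
    rw [Matrix.sub_mul, Matrix.one_mul, hqy, hy, add_sub_cancel_left]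
  set S : Finset (Fin d) := univ.filter (fun j => lam j ≠ c) with hS
  -- the columns
  have hin : ∀ j, j ∈ S → q *ᵥ V.col j = V.col j := by
    intro j hj
    rw [hS, mem_filter] at hj
    have h1 : (1 - q) *ᵥ (y *ᵥ V.col j) = ((c : ℝ) : ℂ) • ((1 - q) *ᵥ V.col j) := by
      rw [mulVec_mulVec, hq1y, smul_mulVec]
    rw [hcol, mulVec_smul] at h1
    have h2 : (((lam j : ℝ) : ℂ) - ((c : ℝ) : ℂ)) • ((1 - q) *ᵥ V.col j) = 0 := by
      rw [sub_smul, h1, sub_self]
    rcases smul_eq_zero.mp h2 with h3 | h3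
    · exfalso
      apply hj.2
      have h4 := sub_eq_zero.mp h3
      exact_mod_cast h4
    · rw [sub_mulVec, one_mulVec, sub_eq_zero] at h3
      exact h3.symm
  have hout : ∀ j, j ∉ S → q *ᵥ V.col j = 0 := by
    intro j hj
    have hlc : lam j = c := by
      by_contra h
      exact hj (by rw [hS, mem_filter]; exact ⟨mem_univ j, h⟩)
    have h1 : q *ᵥ (y *ᵥ V.col j) = x *ᵥ (q *ᵥ V.col j) := by
      rw [mulVec_mulVec, hqy, mulVec_mulVec, hqx2]
    rw [hcol, mulVec_smul, hlc] at h1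
    apply Matrix.eq_zero_of_mulVec_eq_zero hc
    rw [sub_mulVec, ← h1]
    have h2 : (Matrix.scalar (Fin d) ((c : ℝ) : ℂ)) *ᵥ (q *ᵥ V.col j) =
        ((c : ℝ) : ℂ) • (q *ᵥ V.col j) := by
      rw [Matrix.scalar_apply]
      funext i
      rw [mulVec_diagonal, Pi.smul_apply, smul_eq_mul]
    rw [h2, sub_self]
  have hqV : q * V = V * dg (ind S) := by
    ext i j
    rw [dg, mul_diagonal]
    have h0 : (q * V) i j = (q *ᵥ V.col j) i := rfl
    rw [h0]
    by_cases hj : j ∈ S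
    · rw [hin j hj]
      unfold ind
      rw [if_pos hj]
      simp [Matrix.col]
    · rw [hout j hj]
      unfold ind
      rw [if_neg hj]
      simp
  have hqf : q = V * dg (ind S) * Vᴴ := by
    calc q = q * (V * Vᴴ) := by rw [hV2, Matrix.mul_one]
      _ = (q * V) * Vᴴ := by rw [Matrix.mul_assoc]
      _ = _ := by rw [hqV]
  refine ⟨V, fun i => ind S i * lam i, S, hV1, hV2, ?_, hqf, ?_⟩
  · calc x = q * y := hqy.symm
      _ = (V * dg (ind S) * Vᴴ) * (V * dg lam * Vᴴ) := by rw [← hqf, ← hspec]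
      _ = V * (dg (ind S) * (Vᴴ * V) * dg lam) * Vᴴ := by simp only [Matrix.mul_assoc]
      _ = V * dg (fun i => ind S i * lam i) * Vᴴ := by rw [hV1, Matrix.mul_one, dg_mul]
  · intro i hi
    show ind S i * lam i = 0
    unfold ind
    rw [if_neg hi, zero_mul]

lemma tr_dg (V : Mt d) (h1 : Vᴴ * V = 1) (A : Finset (Fin d)) :
    tr (V * dg (ind A) * Vᴴ) = A.card := by
  unfold tr
  rw [trace_mul_comm, ← Matrix.mul_assoc, h1, Matrix.one_mul, dg, trace_diagonal]
  have : (∑ i, ((ind A i : ℝ) : ℂ)) = ((A.card : ℝ) : ℂ) := by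
    rw [← sum_ind]
    push_cast
    rfl
  rw [this, Complex.ofReal_re]

/-- the self-adjoint case -/
lemma gap_sa {k : ℕ} (u : Fin k → Mt d) (e1 ζ : ℝ) (q : Mt d) (hu : ∀ s, (u s)ᴴ * u s = 1)
    (hq : IsPr q) (he : 0 < e1) (hζ : 0 ≤ ζ) (hen : en u q ≤ ζ * tr q) (hiso : Iso u e1 q)
    (x : Mt d) (hx : xᴴ = x) (hqx : q * x * q = x) :
    ∃ m : ℝ, hs (x - (m : ℂ) • q) ≤ 16 * k / e1 ^ 2 * (en u x + ζ * hs x) := by
  obtain ⟨V, a, S, hV1, hV2, hxV, hqV, ha⟩ := joint q x hq hx hqx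
  have hu' : ∀ s, u s * (u s)ᴴ = 1 := fun s => mul_eq_one_comm.mp (hu s)
  have hrow : ∀ i, ∑ j, Wt u V i j = (k : ℝ) := by
    intro i
    unfold Wt
    rw [sum_comm]
    have : ∀ s, ∑ j, ‖(Vᴴ * u s * V) i j‖ ^ 2 = 1 := by
      intro s
      apply row_one
      rw [conjTranspose_mul, conjTranspose_mul, conjTranspose_conjTranspose]
      have : Vᴴ * u s * V * (Vᴴ * ((u s)ᴴ * V)) = Vᴴ * (u s * ((V * Vᴴ) * ((u s)ᴴ * V))) := by
        simp only [Matrix.mul_assoc]
      rw [this, hV2, Matrix.one_mul, ← Matrix.mul_assoc (u s), hu' s, Matrix.one_mul, hV1]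
    rw [sum_congr rfl fun s _ => this s]
    simp
  have hcolm : ∀ j, ∑ i, Wt u V i j = (k : ℝ) := by
    intro j
    unfold Wt
    rw [sum_comm]
    have : ∀ s, ∑ i, ‖(Vᴴ * u s * V) i j‖ ^ 2 = 1 := by
      intro s
      apply col_one
      rw [conjTranspose_mul, conjTranspose_mul, conjTranspose_conjTranspose]
      have : Vᴴ * ((u s)ᴴ * V) * (Vᴴ * u s * V) = Vᴴ * ((u s)ᴴ * ((V * Vᴴ) * (u s * V))) := by
        simp only [Matrix.mul_assoc]
      rw [this, hV2, Matrix.one_mul, ← Matrix.mul_assoc (u s)ᴴ, hu s, Matrix.one_mul, hV1]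
    rw [sum_congr rfl fun s _ => this s]
    simp
  have htrq : tr q = S.card := by rw [hqV]; exact tr_dg V hV1 S
  have hcore := core (Wt u V) (Wt_nonneg u V) k e1 ζ (Nat.cast_nonneg k) he hζ hrow hcolm S (by
    intro A hA hcard
    have h1 := hiso (V * dg (ind A) * Vᴴ) (by
      constructor
      · rw [conjTranspose_mul, conjTranspose_mul, conjTranspose_conjTranspose, dg_conj,
          Matrix.mul_assoc]
      · have : V * dg (ind A) * Vᴴ * (V * dg (ind A) * Vᴴ) =
            V * (dg (ind A) * (Vᴴ * V) * dg (ind A)) * Vᴴ := by simp only [Matrix.mul_assoc]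
        rw [this, hV1, Matrix.mul_one, dg_mul]
        congr 3
        funext i
        unfold ind
        split_ifs <;> norm_num) (by
      rw [hqV]
      have : V * dg (ind S) * Vᴴ * (V * dg (ind A) * Vᴴ) =
            V * (dg (ind S) * (Vᴴ * V) * dg (ind A)) * Vᴴ := by simp only [Matrix.mul_assoc]
      rw [this, hV1, Matrix.mul_one, dg_mul]
      congr 3
      funext i
      unfold ind
      by_cases hi : i ∈ A
      · rw [if_pos hi, if_pos (hA hi)]; norm_num
      · rw [if_neg hi]; norm_num) (by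
      rw [tr_dg V hV1, htrq]
      exact hcard)
    rw [tr_dg V hV1, en_dg u V hV1 hV2] at h1
    exact h1) (by
    rw [← en_dg u V hV1 hV2, ← hqV, ← htrq]
    exact hen) a ha
  obtain ⟨m, hm⟩ := hcore
  refine ⟨m, ?_⟩
  have e1 : x - (m : ℂ) • q = V * dg (fun i => a i - m * ind S i) * Vᴴ := by
    have : dg (fun i => a i - m * ind S i) = dg a - (m : ℂ) • dg (ind S) := by
      ext i j
      simp only [dg, Matrix.sub_apply, Matrix.smul_apply, diagonal_apply, smul_eq_mul]
      split_ifs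
      · push_cast; ring
      · ring
    rw [this, Matrix.mul_sub, Matrix.sub_mul, ← hxV, Matrix.mul_smul, Matrix.smul_mul, ← hqV]
  have e2 : hs (x - (m : ℂ) • q) = ∑ i, (a i - m * ind S i) ^ 2 := by
    rw [e1, hs_mul_right Vᴴ _ (by rw [conjTranspose_conjTranspose]; exact hV1),
      hs_mul_left V _ hV1, hs_dg]
  have e3 : hs x = ∑ i, a i ^ 2 := by
    conv_lhs => rw [hxV]
    rw [hs_mul_right Vᴴ _ (by rw [conjTranspose_conjTranspose]; exact hV1),
      hs_mul_left V _ hV1, hs_dg]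
  have e4 : en u x = E (Wt u V) a := by
    conv_lhs => rw [hxV]
    rw [en_dg u V hV1 hV2]
  rw [e2, e3, e4]
  exact hm

/-- the energy of the adjoint -/
lemma en_conj {k : ℕ} (u : Fin k → Mt d) (hu : ∀ s, (u s)ᴴ * u s = 1) (x : Mt d) :
    en u xᴴ = en u x := by
  unfold en
  refine sum_congr rfl fun s _ => ?_
  have hu' : u s * (u s)ᴴ = 1 := mul_eq_one_comm.mp (hu s)
  have h1 : u s * (u s * xᴴ - xᴴ * u s)ᴴ * u s = u s * x - x * u s := by
    rw [conjTranspose_sub, conjTranspose_mul, conjTranspose_mul, conjTranspose_conjTranspose,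
      Matrix.mul_sub, Matrix.sub_mul]
    have e1 : u s * (x * (u s)ᴴ) * u s = u s * x * ((u s)ᴴ * u s) := by
      simp only [Matrix.mul_assoc]
    have e2 : u s * ((u s)ᴴ * x) * u s = (u s * (u s)ᴴ) * (x * u s) := by
      simp only [Matrix.mul_assoc]
    rw [e1, e2, hu s, hu', Matrix.mul_one, Matrix.one_mul]
  rw [← h1, hs_mul_right (u s) _ hu', hs_mul_left (u s) _ (hu s), hs_conjTranspose]

theorem main : GapP := by
  intro d k u e1 ζ q hu hq he hζ hen hiso x hqx
  obtain ⟨x1, hx1⟩ : ∃ x1 : Mt d, x1 = (1 / 2 : ℂ) • (x + xᴴ) := ⟨_, rfl⟩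
  obtain ⟨x2, hx2⟩ : ∃ x2 : Mt d, x2 = (-(Complex.I / 2)) • (x - xᴴ) := ⟨_, rfl⟩
  have hx : x = x1 + Complex.I • x2 := by
    rw [hx1, hx2, smul_smul]
    have : Complex.I * -(Complex.I / 2) = 1 / 2 := by
      have := Complex.I_mul_I
      linear_combination (-1 / 2 : ℂ) * this
    rw [this, ← smul_add]
    have h2 : x + xᴴ + (x - xᴴ) = (2 : ℂ) • x := by
      rw [two_smul]; abel
    rw [h2, smul_smul]
    norm_num
  have hxs : xᴴ = x1 - Complex.I • x2 := by
    rw [hx1, hx2, smul_smul]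
    have : Complex.I * -(Complex.I / 2) = 1 / 2 := by
      have := Complex.I_mul_I
      linear_combination (-1 / 2 : ℂ) * this
    rw [this, ← smul_sub]
    have h2 : x + xᴴ - (x - xᴴ) = (2 : ℂ) • xᴴ := by
      rw [two_smul]; abel
    rw [h2, smul_smul]
    norm_num
  have h1s : x1ᴴ = x1 := by
    rw [hx1, conjTranspose_smul, conjTranspose_add, conjTranspose_conjTranspose, add_comm xᴴ x]
    congr 1
    simp
  have h2s : x2ᴴ = x2 := by
    rw [hx2, conjTranspose_smul, conjTranspose_sub, conjTranspose_conjTranspose]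
    have : star (-(Complex.I / 2)) = Complex.I / 2 := by
      simp
      ring
    rw [this, neg_smul, ← smul_neg, neg_sub]
  have hqxs : q * xᴴ * q = xᴴ := by
    have h := congrArg conjTranspose hqx
    rw [conjTranspose_mul, conjTranspose_mul, hq.1] at h
    rw [Matrix.mul_assoc]
    exact h
  have h1q : q * x1 * q = x1 := by
    rw [hx1, Matrix.mul_smul, Matrix.smul_mul, Matrix.mul_add, Matrix.add_mul, hqx, hqxs]
  have h2q : q * x2 * q = x2 := by
    rw [hx2, Matrix.mul_smul, Matrix.smul_mul, Matrix.mul_sub, Matrix.sub_mul, hqx, hqxs]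
  obtain ⟨m1, hm1⟩ := gap_sa u e1 ζ q hu hq he hζ hen hiso x1 h1s h1q
  obtain ⟨m2, hm2⟩ := gap_sa u e1 ζ q hu hq he hζ hen hiso x2 h2s h2q
  refine ⟨(m1 : ℂ) + Complex.I * m2, ?_⟩
  have e3 : x - ((m1 : ℂ) + Complex.I * m2) • q =
      (x1 - (m1 : ℂ) • q) + Complex.I • (x2 - (m2 : ℂ) • q) := by
    conv_lhs => rw [hx]
    module
  have hsa : ∀ (y : Mt d) (m : ℝ), yᴴ = y → (y - (m : ℂ) • q)ᴴ = y - (m : ℂ) • q := by
    intro y m hy
    rw [conjTranspose_sub, conjTranspose_smul, hy, hq.1]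
    congr 2
    exact Complex.conj_ofReal m
  have e4 : hs (x - ((m1 : ℂ) + Complex.I * m2) • q) =
      hs (x1 - (m1 : ℂ) • q) + hs (x2 - (m2 : ℂ) • q) := by
    rw [e3, hs_add_I _ _ (hsa x1 m1 h1s) (hsa x2 m2 h2s)]
  have e5 : hs x = hs x1 + hs x2 := by
    conv_lhs => rw [hx]
    exact hs_add_I _ _ h1s h2s
  have e6 : en u x = en u x1 + en u x2 := by
    have h1 : en u x + en u xᴴ = 2 * en u x1 + 2 * en u x2 := by
      unfold en
      rw [← sum_add_distrib, mul_sum, mul_sum, ← sum_add_distrib]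
      refine sum_congr rfl fun s _ => ?_
      have h2 := hs_par (u s * x1 - x1 * u s) (Complex.I • (u s * x2 - x2 * u s))
      rw [hs_smul, Complex.norm_I, one_pow, one_mul] at h2
      rw [← h2]
      have e7 : u s * x - x * u s =
          u s * x1 - x1 * u s + Complex.I • (u s * x2 - x2 * u s) := by
        have e8 : u s * x - x * u s =
            u s * (x1 + Complex.I • x2) - (x1 + Complex.I • x2) * u s := by rw [← hx]
        rw [e8, Matrix.mul_add, Matrix.add_mul, Matrix.mul_smul, Matrix.smul_mul, smul_sub]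
        abel
      have e9 : u s * xᴴ - xᴴ * u s =
          u s * x1 - x1 * u s - Complex.I • (u s * x2 - x2 * u s) := by
        rw [hxs, Matrix.mul_sub, Matrix.sub_mul, Matrix.mul_smul, Matrix.smul_mul, smul_sub]
        abel
      rw [e7, e9]
    rw [en_conj u hu] at h1
    linarith
  rw [e4, e5, e6]
  calc _ ≤ 16 * (k : ℝ) / e1 ^ 2 * (en u x1 + ζ * hs x1) +
        16 * (k : ℝ) / e1 ^ 2 * (en u x2 + ζ * hs x2) := add_le_add hm1 hm2
    _ = _ := by ring

end

end Pool.Agent.W885.RC
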